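import Pool.Agent.Q45.TL.Main
import Pool.Agent.Q45.TT.Dens

/-!
# The Tate conjecture at `p` over all towers of cyclic extensions of degree `p` of `k(t)` at once

Let `p` be a prime, `q` a power of `p`, `k` a field which contains a primitive root of unity of order
`q`, and `g` a monic polynomial over `k` of degree prime to `p`, with `g' ≠ 0`. Let `J` be the Jacobian
of the curve `w ^ q = g(x) + t`.

Let `K` be any field which is obtained from `k(t)` by successive adjunctions of `p`-th roots (for
example every finite Galois extension of `k(t)` of degree a power of `p`, with any Galois group), so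
the base curve, with the function field `K`, has any genus. Suppose that, over the affine `t`-line, `K`
is ramified only over places given by irreducible polynomials `b(t)` such that `b(-g(x))` is
irreducible and separable over `k`: over the place `b` the polynomial `g(x) + t` remains irreducible.

(1) Then the Tate conjecture for divisors at `p` holds for the surface `w ^ q = g(x) + t` over the
curve with the function field `K`, with respect to every Galois extension `k'` of `k`; the
`p`-primary part of the Tate-Shafarevich group of `J` over `K` is zero, and each element of `J(K)` is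
`p` times exactly one element of `J(K)`; if `k` is finitely generated, then `J(K)` is finite of order
prime to `p`.

(2) Let `k` be a number field and `B` any finite set of polynomials over `k`. For `100%` of the integer
vectors `(a₀, …, a_{n-1})` (ordered by the height) the polynomial `g(x) = x ^ n + ∑ a_i x ^ i` has the
following property: the conclusions of (1) hold for ALL the (infinitely many) fields `K` of this kind
which are unramified outside of `B` and infinity.
-/

set_option autoImplicit false
set_option linter.all false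

open Polynomial IsDedekindDomain Filter Topology
open scoped Classical

namespace Pool.Agent.Results.MP_17a657_ag.AllTowersInertBranching

open Pool.Agent.Y160.SL
open Pool.Agent.TH115.GD (incl Sep Comp)

/-- The elements of `k` as elements of `K`. -/
noncomputable def const (k K : Type) [Field k] [Field K] [Algebra k[X] K] : k →+* K :=
  (algebraMap k[X] K).comp C

/-- The polynomial `f(x) = g(x) + t` over `K`, where `t` is the variable of `k[t]`. -/
noncomputable def fPoly {k : Type} [Field k] (g : k[X]) (K : Type) [Field K] [Algebra k[X] K] : K[X] :=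
  g.map (const k K) + C (algebraMap k[X] K X)

/-- The subfield generated by `k(t)` and the elements `s j`, `j < i`. -/
def level (k : Type) [Field k] {K : Type} [Field K] [Algebra k[X] K] (s : ℕ → K) (i : ℕ) :
    Subfield K :=
  Subfield.closure (Set.range (algebraMap k[X] K) ∪ s '' {j | j < i})

/-- The field `K` is obtained from `k(t)` by successive adjunctions of the elements
`s 0, …, s (m - 1)`: the `p`-th power of `s i` is in the field generated by `k(t)` and the elements
`s j`, `j < i`. -/
structure IsTowerOfRoots (p : ℕ) (k : Type) [Field k] (K : Type) [Field K] [Algebra k[X] K] (m : ℕ)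
    (s : ℕ → K) : Prop where
  inj : Function.Injective (algebraMap k[X] K)
  pow : ∀ i < m, s i ^ p ∈ level k s i
  gen : level k s m = ⊤

/-- The extension `A` of the ring `k[t]` is unramified outside of the places given by the monic
irreducible polynomials in `S`. -/
def UnramifiedOutside {k : Type} [Field k] (A : Type) [CommRing A] [Algebra k[X] A]
    (S : Set k[X]) : Prop :=
  ∀ (v : HeightOneSpectrum A) (b : k[X]), b.Monic → Irreducible b →
    algebraMap k[X] A b ∈ v.asIdeal ^ 2 → b ∈ S

/-- The polynomials `b` such that `b(-g(x))` is irreducible and separable. -/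
def inertSet {k : Type} [Field k] (g : k[X]) : Set k[X] :=
  {b | Irreducible (b.comp (-g)) ∧ (b.comp (-g)).Separable}

/-- The field `F` is the extension `k' K` of `K` by the constants `k'`. -/
structure IsConstantExtension (k k' K F : Type) [Field k] [Field k'] [Algebra k k'] [Field K]
    [Algebra k[X] K] [Field F] [Algebra k'[X] F] [Algebra K F] : Prop where
  inj : Function.Injective (algebraMap k'[X] F)
  comp : ∀ p : k[X], algebraMap K F (algebraMap k[X] K p) =
    algebraMap k'[X] F (p.map (algebraMap k k'))
  gen : IntermediateField.adjoin K (Set.range ((algebraMap k'[X] F).comp C)) = ⊤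

/-- The restriction of the cochain `c` to the completion of `F` at every maximal ideal of the Dedekind
domain `B` with field of fractions `F` is a coboundary. -/
def IsSelmer (q : ℕ) {K F : Type} [Field K] [Field F] [Algebra K F] (B : Type) [CommRing B]
    [IsDedekindDomain B] [Algebra B F] [IsFractionRing B F] (f : K[X])
    (c : (Sep F ≃ₐ[F] Sep F) → Jac q f (Sep F)) : Prop :=
  ∀ v : HeightOneSpectrum B, LocTriv q f (Comp B F v) (Sep (Comp B F v)) c

/-- The class of `c`, with values in `T_p J`, comes from `J(K)`: for every `n` there are `P` in `J(K)`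
and `R` in `J(Sep F)` with `p ^ n R = P` and `c n σ = σ R - R` for all `σ`. -/
def ComesFromK (p q : ℕ) {K F : Type} [Field K] [Field F] [Algebra K F] (f : K[X])
    (c : ℕ → (Sep F ≃ₐ[F] Sep F) → Jac q f (Sep F)) : Prop :=
  ∀ n, ∃ (P : Jac q f K) (R : Jac q f (Sep F)), p ^ n • R = jm q f (incl K K (Sep F)) P ∧
    IsCobOf q f (c n) R

/-- If `c` is a cocycle of `Gal(Sep F / F)` with values in `T_p J` which is locally trivial at the
maximal ideals of `B`, and the class of `c` in `H ^ 1 (F, V_p J)` is fixed by the Galois group of `K`,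
then the class of `c` comes from `J(K)`. -/
def TateAt (p q : ℕ) {K F : Type} [Field K] [Field F] [Algebra K F] (B : Type) [CommRing B]
    [IsDedekindDomain B] [Algebra B F] [IsFractionRing B F] (f : K[X]) : Prop :=
  ∀ c : ℕ → (Sep F ≃ₐ[F] Sep F) → Jac q f (Sep F), IsTC p q f c →
    (∀ n, IsSelmer q B f (c n)) → IsInv p q f c → ComesFromK p q f c

/-- The Tate conjecture at `p` for the surface with generic fibre `w ^ q = f(x)` over `K`, for every
Galois extension `k'` of `k` (for example the separable closure of `k`), `F = k' K` and `B` the integral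
closure of `k'[t]` in `F`: only the places of `F` over the affine `t`-line are used. -/
def TateConj (p q : ℕ) (k : Type) {K : Type} [Field k] [Field K] [Algebra k[X] K] (f : K[X]) : Prop :=
  ∀ (k' F B : Type) [Field k'] [Algebra k k'] [IsGalois k k'] [Field F] [Algebra k'[X] F]
    [Algebra K F] [CommRing B] [IsDedekindDomain B] [Algebra B F] [IsFractionRing B F]
    [Algebra k'[X] B] [IsScalarTower k'[X] B F] [IsIntegralClosure B k'[X] F],
    IsConstantExtension k k' K F → TateAt p q (F := F) B f

/-- The conclusions for the field `K`, where `A` is the integral closure of `k[t]` in `K`: the Tate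
conjecture at `p`, the triviality of the `p`-primary part of the Tate-Shafarevich group (even with
respect to the maximal ideals of `A` only), and the unique divisibility of `J(K)` by `p`. -/
def Concl (p q : ℕ) (k : Type) {K : Type} [Field k] [Field K] [Algebra k[X] K] (A : Type)
    [CommRing A] [IsDedekindDomain A] [Algebra A K] [IsFractionRing A K] (f : K[X]) : Prop :=
  TateConj p q k f ∧ ShaTriv p q A f ∧ ∀ P : Jac q f K, ∃! Q : Jac q f K, p • Q = P

/-- The polynomial `x ^ n + ∑ v_i x ^ i`, where `i < n` and `v` is an integer vector, over `k`. -/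
noncomputable def gOf (k : Type) [Field k] {n : ℕ} (v : Fin n → ℤ) : k[X] :=
  X ^ n + ∑ i : Fin n, C ((v i : ℤ) : k) * X ^ (i : ℕ)

/-- The conclusions hold for the polynomial `g` over all towers which are unramified outside of `S`. -/
def HoldsOutside (p q : ℕ) (k : Type) [Field k] (g : k[X]) (S : Set k[X]) : Prop :=
  ∀ (K : Type) [Field K] [Algebra k[X] K] (m : ℕ) (s : ℕ → K), IsTowerOfRoots p k K m s →
    ∀ (A : Type) [CommRing A] [IsDedekindDomain A] [Algebra A K] [IsFractionRing A K]
      [Algebra k[X] A] [IsScalarTower k[X] A K] [IsIntegralClosure A k[X] K],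
      UnramifiedOutside A S → Concl p q k A (fPoly g K)

/-- All fields. -/
def Criterion : Prop :=
  ∀ (p e : ℕ), p.Prime → e ≠ 0 → ∀ (k : Type) [Field k] (ζ : k), IsPrimitiveRoot ζ (p ^ e) →
    ∀ g : k[X], g.Monic → 0 < g.natDegree → p.Coprime g.natDegree → derivative g ≠ 0 →
      HoldsOutside p (p ^ e) k g (inertSet g)

/-- Number fields: the set of the exceptions has density zero. -/
def NumberFields : Prop :=
  ∀ (p e : ℕ), p.Prime → e ≠ 0 → ∀ (k : Type) [Field k] [NumberField k] (ζ : k),
    IsPrimitiveRoot ζ (p ^ e) → ∀ n : ℕ, 0 < n → p.Coprime n → ∀ B : Finset k[X],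
      Tendsto (fun H : ℕ => (({v : Fin n → ℤ | (∀ i, |v i| ≤ (H : ℤ)) ∧
        ¬ HoldsOutside p (p ^ e) k (gOf k v) (B : Set k[X])}.ncard : ℕ) : ℝ) /
          (2 * (H : ℝ) + 1) ^ n) atTop (𝓝 0)

theorem tate_of {p q : ℕ} {K F : Type} [Field K] [Field F] [Algebra K F] {B : Type} [CommRing B]
    [IsDedekindDomain B] [Algebra B F] [IsFractionRing B F] {f : K[X]}
    (h : Pool.Agent.Q45.GP.TateOver (F := F) p q B f) : TateAt p q (F := F) B f := by
  intro c hc hl hi n
  exact h c ⟨fun n => ⟨(hc.coc n).lc, (hc.coc n).mul⟩, hc.zero, hc.step⟩ hl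
    (fun τ => by
      obtain ⟨m, Q, hQ, hm⟩ := hi τ
      exact ⟨m, Q, ⟨hQ.zero, hQ.step⟩, hm⟩) n

theorem ram_of {k : Type} [Field k] {g : k[X]} {A : Type} [CommRing A] [Algebra k[X] A]
    (h : UnramifiedOutside A (inertSet g)) : Pool.Agent.Q45.TT.Ram g A := by
  intro v b hb hbv
  have hl : b.leadingCoeff ≠ 0 := leadingCoeff_ne_zero.2 hb.ne_zero
  have hu : IsUnit (C (b.leadingCoeff⁻¹) : k[X]) := isUnit_C.2 (isUnit_iff_ne_zero.2 (inv_ne_zero hl))
  have hm : (b * C b.leadingCoeff⁻¹).Monic := monic_mul_leadingCoeff_inv hb.ne_zero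
  have hi : Irreducible (b * C b.leadingCoeff⁻¹) := (irreducible_mul_isUnit hu).2 hb
  obtain ⟨h1, h2⟩ := h v _ hm hi (by
    rw [map_mul]
    exact Ideal.mul_mem_right _ _ hbv)
  rw [mul_comp, C_comp] at h1 h2
  exact ⟨(irreducible_mul_isUnit hu).1 h1, h2.of_mul_left⟩

theorem criterion : Criterion := by
  intro p e hp he k _ ζ hζ g hg hpos hcop hd K _ _ m s hK A _ _ _ _ _ _ _ hA
  have hr := ram_of hA
  have hT : Pool.Agent.Q45.TL.IsTower p k K m s := ⟨hK.inj, hK.pow, hK.gen⟩
  obtain ⟨h1, h2⟩ := Pool.Agent.Q45.TL.sha_tower hp rfl he hζ hg hpos hcop hd hT (A := A) hr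
  refine ⟨?_, shaTriv_of h1, h2⟩
  intro k' F B _ _ _ _ _ _ _ _ _ _ _ _ _ hF
  exact tate_of (Pool.Agent.Q45.TL.tate_tower (k' := k') (A' := B) hp rfl he hζ hg hpos hcop hd hT
    (A := A) hr ⟨hF.inj, hF.comp, hF.gen⟩)

/-- (1) The criterion. (2) Number fields. -/
theorem result : Criterion ∧ NumberFields := by
  refine ⟨criterion, ?_⟩
  intro p e hp he k _ _ ζ hζ n hn hcop B
  have hz : Q45.Tate.Zd (⋃ b : {b // b ∈ B ∧ Irreducible b},
      {v : Fin n → ℤ | ¬ Irreducible (b.1.comp (-(Pool.Agent.Y160.T3.mF fun i => ((v i : ℤ) : k))))}) := by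
    haveI : Finite {b // b ∈ B ∧ Irreducible b} :=
      Finite.of_injective (fun b => (⟨b.1, b.2.1⟩ : {b // b ∈ B}))
        fun a b h => Subtype.ext (congrArg (fun x : {b // b ∈ B} => x.1) h)
    exact Q45.Tate.Zd.iUnion fun b => Pool.Agent.Q45.TT.zd_comp b.2.2 hn
  refine Q45.Tate.Zd.mono (S := {v | ¬ HoldsOutside p (p ^ e) k (gOf k v) (B : Set k[X])}) hz ?_
  intro v hv
  by_contra hex
  apply hv
  intro K _ _ m s hK A _ _ _ _ _ _ _ hA
  have hgv : gOf k v = Pool.Agent.Y160.T3.mF fun i => ((v i : ℤ) : k) := rfl
  have hg : (gOf k v).Monic := Pool.Agent.Y160.T3.mF_monic _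
  have hgn : (gOf k v).natDegree = n := Pool.Agent.Y160.T3.mF_natDegree _
  refine criterion p e hp he k ζ hζ (gOf k v) hg (by omega) (by rwa [hgn]) ?_ K m s hK A ?_
  · intro h0
    have h1 := natDegree_eq_zero_of_derivative_eq_zero h0
    omega
  · intro w b hbm hbi hbw
    have hbB : b ∈ B := by exact_mod_cast hA w b hbm hbi hbw
    have hirr : Irreducible (b.comp (-(gOf k v))) := by
      by_contra hcon
      exact hex (Set.mem_iUnion.2 ⟨⟨b, hbB, hbi⟩, hcon⟩)
    exact ⟨hirr, hirr.separable⟩

end Pool.Agent.Results.MP_17a657_ag.AllTowersInertBranching
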