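import Pool.Agent.Q45.GM.Dph

/-!
# The fields of definition of the Tate classes of a double plane

Let `k` be a field of characteristic different from `2`, with separable closure `k'`, and let
`P(t, x)` be a polynomial over `k`, monic of odd degree in `x`, such that the plane curve
`C : P(t, x) = 0` is smooth, irreducible over `k'` and separable over the `t`-line. Let `X` be the
double plane `w ^ 2 = P(t, x)` with branch curve `C`, `J` the Jacobian of the hyperelliptic curve
`w ^ 2 = P(t, x)` over `K = k(t)`, `F = k'(t)`, and `M` the `ℤ_2`-module of the classes of the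
continuous cocycles of `Gal(Sep F / F)` with values in the Tate module `T_2 J` which are locally trivial
at all the maximal ideals of `k'[t]`. The group of the automorphisms of the separable closure of `F` over
`K` acts on `M`. An element of `M` is a Tate class over the finite extension `E` of `k` in `k'` if it is
fixed by the automorphisms which fix `E`.

Let `S` be the ring of the functions on `C` over `k'`, `L` its field of fractions, and `W` the group of
the elements of `Lˣ` whose fractional ideal is a square, modulo the squares, which is finite; if `C` has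
a single place at infinity then `W` is the group of the points of order `2` of the Jacobian of `C`. The
module `M` is free, and `2 ^ rank M` divides the order of `W`.

(1) The automorphisms which act trivially on `W` act on the Tate classes over all the finite extensions
of `k` as involutions, which commute with each other. So these classes are Tate classes over a
multiquadratic extension of the field of definition of the elements of `W`.

(2) Let `k` be finite with `q` elements, and let the `N`-th power of the Frobenius, `N > 0`, act trivially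
on `W`. All the Tate classes over all the finite extensions of `k` are Tate classes over
the extension of degree `2 N`: if `φ` is the Frobenius and `φ ^ j m = m`, `j > 0`, then
`φ ^ (2 N) m = m`.
-/

set_option autoImplicit false
set_option linter.all false

open Polynomial IsDedekindDomain
open scoped Classical nonZeroDivisors

namespace Pool.Agent.Results.MP_17a657_ag.DivisorsOfDoublePlanes

open Pool.Agent.Y160.SL
open Pool.Agent.TH115.GD (rs ak Sep Comp)

/-- The derivative with respect to `t` of the polynomial `P(t, x)` in `k[t][x]`. -/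
noncomputable def derivT {k : Type} [Field k] (P : k[X][X]) : k[X][X] :=
  P.sum fun i a => C (derivative a) * X ^ i

/-- The conditions on the curve `P(t, x) = 0` over `k`: `P` is monic of odd degree in `x`, the curve is
smooth and separable over the `t`-line. -/
structure IsSmoothCurve {k : Type} [Field k] (P : k[X][X]) : Prop where
  two : (2 : k) ≠ 0
  monic : P.Monic
  odd : Odd P.natDegree
  separable : derivative P ≠ 0
  smooth : ∃ a₁ a₂ a₃ : k[X][X], a₁ * P + a₂ * derivative P + a₃ * derivT P = 1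

/-- The polynomial `P(t, x)` over `k'`. -/
noncomputable def extendPoly {k : Type} [Field k] (k' : Type) [Field k'] [Algebra k k']
    (P : k[X][X]) : k'[X][X] := P.map (mapRingHom (algebraMap k k'))

/-- The ring of the functions on the curve `P(t, x) = 0` over `k'`. -/
abbrev CurveRing {k : Type} [Field k] (k' : Type) [Field k'] [Algebra k k'] (P : k[X][X]) : Type :=
  AdjoinRoot (extendPoly k' P)

/-- The polynomial `P(t, x)` over the field `K` which contains `k[t]`. -/
noncomputable def fPoly {k : Type} [Field k] (P : k[X][X]) (K : Type) [Field K] [Algebra k[X] K] :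
    K[X] := P.map (algebraMap k[X] K)

section curve

/-- The elements of `Lˣ` whose fractional ideal is a square. -/
def evenGroup (S L : Type) [CommRing S] [IsDedekindDomain S] [Field L] [Algebra S L]
    [IsFractionRing S L] : Subgroup Lˣ where
  carrier := {z | ∃ I : FractionalIdeal S⁰ L, FractionalIdeal.spanSingleton S⁰ (z : L) = I ^ 2}
  mul_mem' := (Pool.Agent.Q45.GM.evS S L).mul_mem'
  one_mem' := (Pool.Agent.Q45.GM.evS S L).one_mem'
  inv_mem' := (Pool.Agent.Q45.GM.evS S L).inv_mem'

/-- The squares. -/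
def squares (L : Type) [Field L] : Subgroup Lˣ := (powMonoidHom 2 : Lˣ →* Lˣ).range

variable {k : Type} [Field k] (k' : Type) [Field k'] [Algebra k k'] (P : k[X][X])
  (L : Type) [Field L] [Algebra (CurveRing k' P) L]

/-- The automorphism `e` of `L` fixes the polynomials in `t` and `x` over `k`. -/
def FixesPolys (e : L ≃+* L) : Prop :=
  ∀ p : k[X][X], e (algebraMap (CurveRing k' P) L (AdjoinRoot.mk _ (extendPoly k' p))) =
    algebraMap (CurveRing k' P) L (AdjoinRoot.mk _ (extendPoly k' p))

/-- The automorphism `e` of `L` maps the constant `c` in `k'` to `τ c`. -/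
def HasConstants (e : L ≃+* L) (τ : k' → k') : Prop :=
  ∀ c : k', e (algebraMap (CurveRing k' P) L (AdjoinRoot.of _ (C c))) =
    algebraMap (CurveRing k' P) L (AdjoinRoot.of _ (C (τ c)))

end curve

section gen

variable {K F Ω : Type} [Field K] [Field F] [Field Ω] [Algebra K F] [Algebra F Ω] [Algebra K Ω]
  [IsScalarTower K F Ω] (f : K[X])

/-- The sequences of cochains of `Gal(Ω / F)` with values in `J(Ω)`. -/
abbrev Cochain (F Ω : Type) [Field F] [Field Ω] [Algebra K Ω] [Algebra F Ω] (f : K[X]) : Type :=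
  ℕ → (Ω ≃ₐ[F] Ω) → Jac 2 f Ω

/-- `c` is the coboundary of an element `R` of the Tate module `T_2 J`. -/
def IsTateCoboundary (c : Cochain F Ω f) : Prop :=
  ∃ R : ℕ → Jac 2 f Ω, IsTM 2 2 f R ∧ ∀ n, IsCobOf 2 f (c n) (R n)

/-- The map `κ` identifies with `M` the group of the classes of the cocycles with the property `P`:
it is additive and surjective on these cocycles, and `κ c = 0` if and only if `c` is the coboundary of
an element of the Tate module. -/
structure IsClassMap (P : Cochain F Ω f → Prop) (M : Type) [AddCommGroup M]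
    (κ : Cochain F Ω f → M) : Prop where
  surj : ∀ m, ∃ c, P c ∧ κ c = m
  add : ∀ c d, P c → P d → κ (c + d) = κ c + κ d
  zero : ∀ c, P c → (κ c = 0 ↔ IsTateCoboundary f c)

/-- `d` is the transform of the cochain `c` by the automorphism `T` of `Ω` over `K`:
`d (σ) = T (c (σ'))`, where `σ' = T⁻¹ σ T`. -/
def IsTransform (T : Ω ≃ₐ[K] Ω) (c d : Cochain F Ω f) : Prop :=
  ∀ n (σ σ' : Ω ≃ₐ[F] Ω), (∀ x, T (σ' x) = σ (T x)) → d n σ = jm 2 f (ak T) (c n σ')

/-- The endomorphism `φ` of `M` is induced by the automorphism `T` of `Ω` over `K`. -/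
def IsInduced (P : Cochain F Ω f → Prop) {M : Type} (κ : Cochain F Ω f → M) (T : Ω ≃ₐ[K] Ω)
    (φ : M → M) : Prop :=
  ∀ c d, P c → IsTransform f T c d → P d ∧ κ d = φ (κ c)

end gen

section sel

variable {K F : Type} [Field K] [Field F] [Algebra K F] (B : Type) [CommRing B] [IsDedekindDomain B]
  [Algebra B F] [IsFractionRing B F] (f : K[X])

/-- The restriction of the cochain `c` to the completion of `F` at every maximal ideal of the Dedekind
domain `B` with field of fractions `F` is a coboundary. -/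
def IsSelmer (c : (Sep F ≃ₐ[F] Sep F) → Jac 2 f (Sep F)) : Prop :=
  ∀ v : HeightOneSpectrum B, LocTriv 2 f (Comp B F v) (Sep (Comp B F v)) c

/-- `c` is a continuous cocycle of `Gal(Sep F / F)` with values in the Tate module `T_2 J` which is
locally trivial at all the maximal ideals of the Dedekind domain `B` with field of fractions `F`; its
component with values in `J[2 ^ n]` is `c n`. -/
def IsSelmerCocycle (c : Cochain F (Sep F) f) : Prop :=
  IsTC 2 2 f c ∧ ∀ n, IsSelmer B f (c n)

/-- The automorphism `T` of `Sep F` over `K` acts on the module of the classes as `φ`. -/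
def ActsAs {M : Type} [AddCommGroup M] [Module ℤ_[2] M] (κ : Cochain F (Sep F) f → M)
    (T : Sep F ≃ₐ[K] Sep F) (φ : M →ₗ[ℤ_[2]] M) : Prop :=
  IsInduced f (IsSelmerCocycle B f) κ T φ

/-- The automorphism `T` of `Sep F` over `K` maps the constant `c` in `k'` to `τ c`. -/
def ActsOnConstants {k' : Type} [Field k'] [Algebra k'[X] F] (T : Sep F ≃ₐ[K] Sep F) (τ : k' → k') :
    Prop :=
  ∀ c : k', T (algebraMap F (Sep F) (algebraMap k'[X] F (C c))) =
    algebraMap F (Sep F) (algebraMap k'[X] F (C (τ c)))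

/-- The element `m` of `M` is fixed by the automorphisms `T` of `Sep F` over `K` which fix the
constants in `E`. -/
def IsTateOver {k k' : Type} [Field k] [Field k'] [Algebra k k'] [Algebra k'[X] F] {M : Type}
    [AddCommGroup M] [Module ℤ_[2] M] (κ : Cochain F (Sep F) f → M) (E : IntermediateField k k')
    (m : M) : Prop :=
  ∀ (T : Sep F ≃ₐ[K] Sep F) (φ : M →ₗ[ℤ_[2]] M),
    (∀ x ∈ E, T (algebraMap F (Sep F) (algebraMap k'[X] F (C x))) =
      algebraMap F (Sep F) (algebraMap k'[X] F (C x))) → ActsAs B f κ T φ → φ m = m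

/-- The automorphisms `S` and `T` with the property `N` act on the classes which are Tate classes over a
finite extension `E` of `k` as commuting involutions. -/
def CommutingInvolutions (k k' : Type) [Field k] [Field k'] [Algebra k k'] [Algebra k'[X] F]
    {M : Type} [AddCommGroup M] [Module ℤ_[2] M] (κ : Cochain F (Sep F) f → M)
    (N : (Sep F ≃ₐ[K] Sep F) → Prop) : Prop :=
  ∀ (E : IntermediateField k k') (m : M), FiniteDimensional k E → IsTateOver B f κ E m →
    ∀ (S T : Sep F ≃ₐ[K] Sep F) (ψ φ : M →ₗ[ℤ_[2]] M), N S → N T →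
      ActsAs B f κ S ψ → ActsAs B f κ T φ → φ (φ m) = m ∧ ψ (φ m) = φ (ψ m)

/-- The module `M` of the classes is free and `2 ^ rank M` divides `r`, all the automorphisms act on
it, and it has the property `Q`. -/
def Concl (r : ℕ) (Q : ∀ (M : Type) [AddCommGroup M] [Module ℤ_[2] M]
    (_ : Cochain F (Sep F) f → M), Prop) : Prop :=
  ∃ (M : Type) (_ : AddCommGroup M) (_ : Module ℤ_[2] M) (_ : Module.Finite ℤ_[2] M)
    (_ : Module.Free ℤ_[2] M) (κ : Cochain F (Sep F) f → M),
    IsClassMap f (IsSelmerCocycle B f) M κ ∧ 2 ^ Module.finrank ℤ_[2] M ∣ r ∧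
    (∀ T : Sep F ≃ₐ[K] Sep F, ∃ φ : M →ₗ[ℤ_[2]] M, ActsAs B f κ T φ) ∧ Q M κ

end sel

/-- The automorphism `T` of `Sep F` over `K` acts trivially on the group `W`: there is an automorphism
`e` of `L` with the same effect on the constants which fixes the polynomials in `t` and `x` over `k` and acts
trivially on `W`. -/
def ActsTriviallyOnW {k : Type} [Field k] (k' : Type) [Field k'] [Algebra k k'] (P : k[X][X])
    [IsDedekindDomain (CurveRing k' P)] (L : Type) [Field L] [Algebra (CurveRing k' P) L]
    [IsFractionRing (CurveRing k' P) L] {K F : Type} [Field K] [Field F] [Algebra K F]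
    [Algebra k'[X] F] (T : Sep F ≃ₐ[K] Sep F) : Prop :=
  ∃ (e : L ≃+* L) (τ : k' → k'), FixesPolys k' P L e ∧ HasConstants k' P L e τ ∧
    ActsOnConstants T τ ∧
    ∀ z ∈ evenGroup (CurveRing k' P) L, Units.map (e : L →* L) z / z ∈ squares L

/-- (1) All fields. -/
def AllFields : Prop :=
  ∀ (k k' K F L : Type) [Field k] [Field k'] [Algebra k k'] [IsSepClosure k k'] [Field K]
    [Algebra k[X] K] [IsFractionRing k[X] K] [Field F] [Algebra k'[X] F] [IsFractionRing k'[X] F]
    [Algebra K F] (P : k[X][X]) [IsDedekindDomain (CurveRing k' P)] [Field L]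
    [Algebra (CurveRing k' P) L] [IsFractionRing (CurveRing k' P) L],
    (∀ p : k[X], algebraMap K F (algebraMap k[X] K p) =
      algebraMap k'[X] F (p.map (algebraMap k k'))) →
    IsSmoothCurve P → (squares L).relIndex (evenGroup (CurveRing k' P) L) ≠ 0 →
      Concl (F := F) k'[X] (fPoly P K) ((squares L).relIndex (evenGroup (CurveRing k' P) L))
        fun M _ _ κ => CommutingInvolutions k'[X] (fPoly P K) k k' κ (ActsTriviallyOnW k' P L)

/-- (2) Finite fields. -/
def FiniteFields : Prop :=
  ∀ (k k' K F L : Type) [Field k] [Finite k] [Field k'] [Algebra k k'] [IsSepClosure k k']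
    [Field K] [Algebra k[X] K] [IsFractionRing k[X] K] [Field F] [Algebra k'[X] F]
    [IsFractionRing k'[X] F] [Algebra K F] (P : k[X][X]) [IsDedekindDomain (CurveRing k' P)]
    [Field L] [Algebra (CurveRing k' P) L] [IsFractionRing (CurveRing k' P) L] (e : L ≃+* L) (N : ℕ),
    (∀ p : k[X], algebraMap K F (algebraMap k[X] K p) =
      algebraMap k'[X] F (p.map (algebraMap k k'))) →
    IsSmoothCurve P → (squares L).relIndex (evenGroup (CurveRing k' P) L) ≠ 0 →
    FixesPolys k' P L e → HasConstants k' P L e (fun c => c ^ Nat.card k) → 0 < N →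
    (∀ z ∈ evenGroup (CurveRing k' P) L, (Units.map (e : L →* L))^[N] z / z ∈ squares L) →
      Concl (F := F) k'[X] (fPoly P K) ((squares L).relIndex (evenGroup (CurveRing k' P) L))
        fun M _ _ κ =>
        ∀ (T : Sep F ≃ₐ[K] Sep F) (φ : M →ₗ[ℤ_[2]] M),
          ActsOnConstants T (fun c : k' => c ^ Nat.card k) →
          ActsAs k'[X] (fPoly P K) κ T φ → ∀ (m : M) (j : ℕ), 0 < j → (φ ^ j) m = m →
            (φ ^ (2 * N)) m = m

open Pool.Agent.Q45.GM (SelT clsOf clsOf_surj clsOf_add clsOf_zero rho rho_cls rho_mul isGeom_rat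
  IsBr with_dp evS sqS Fixes FixP core_sub core_fin core_chain finite_orbit' rho_sq' cs)

section conv

variable {K F : Type} [Field K] [Field F] [Algebra K F] {B : Type} [CommRing B] [IsDedekindDomain B]
  [Algebra B F] [IsFractionRing B F] {f : K[X]}

theorem toTC {c : Cochain F (Sep F) f} (h : IsTC 2 2 f c) : Pool.Agent.Y160.SQ.IsTC 2 2 f c :=
  ⟨fun n => ⟨(h.coc n).lc, (h.coc n).mul⟩, h.zero, h.step⟩

theorem ofTC {c : Cochain F (Sep F) f} (h : Pool.Agent.Y160.SQ.IsTC 2 2 f c) : IsTC 2 2 f c :=
  ⟨fun n => ⟨(h.coc n).lc, (h.coc n).mul⟩, h.zero, h.step⟩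

/-- The classes of the cocycles. -/
theorem classMap : IsClassMap f (IsSelmerCocycle B f) (SelT (F := F) 2 B f 2) (clsOf B f) where
  surj m := by
    obtain ⟨c, ⟨h1, h2⟩, h3⟩ := clsOf_surj B f m
    exact ⟨c, ⟨ofTC h1, h2⟩, h3⟩
  add c d hc hd := clsOf_add B f (toTC hc.1) hc.2 (toTC hd.1) hd.2
  zero c hc := by
    refine (clsOf_zero B f (toTC hc.1) hc.2).trans ⟨?_, ?_⟩
    · rintro ⟨R, hR, h⟩
      exact ⟨R, ⟨hR.zero, hR.step⟩, h⟩
    · rintro ⟨R, hR, h⟩
      exact ⟨R, ⟨hR.zero, hR.step⟩, h⟩

end conv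


section acts

variable {k k' K F : Type} [Field k] [Field k'] [Algebra k k'] [IsSepClosed k']
  [Algebra.IsSeparable k k'] [Field K] [Algebra k[X] K] [Field F] [Algebra k'[X] F] [Algebra K F]

theorem acts_iff [IsFractionRing k'[X] F] (hF' : Pool.Agent.Q45.TW.IsGeom k k' K F) (f : K[X])
    (T : Sep F ≃ₐ[K] Sep F)
    (φ : SelT (F := F) 2 k'[X] f 2 →ₗ[ℤ_[2]] SelT (F := F) 2 k'[X] f 2) :
    ActsAs k'[X] f (clsOf k'[X] f) T φ ↔ φ = rho k'[X] hF' f T := by
  constructor
  · intro h
    refine LinearMap.ext fun m => ?_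
    obtain ⟨c, ⟨hc, hcs⟩, rfl⟩ := clsOf_surj k'[X] f m
    have hcj := Pool.Agent.Q45.GM.lf_T k'[X] hF' f T
    have hd : IsTransform f T c (fun n σ => jm 2 f (ak T)
        (c n ((Pool.Agent.Q45.GM.lf k'[X] hF' f T).conj σ))) := by
      intro n σ σ' hσ
      have h5 : (Pool.Agent.Q45.GM.lf k'[X] hF' f T).conj σ = σ' := by
        refine AlgEquiv.ext fun x => T.injective ?_
        rw [hσ]
        have h6 := (Pool.Agent.Q45.GM.lf k'[X] hF' f T).T_conj σ x
        rwa [hcj] at h6
      have h8 : ∀ ρ : Sep F ≃ₐ[F] Sep F, ρ = σ' →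
          jm 2 f (ak T) (c n ρ) = jm 2 f (ak T) (c n σ') := by
        rintro ρ rfl
        rfl
      exact h8 _ h5
    have h7 := (h c _ ⟨ofTC hc, hcs⟩ hd).2
    rw [← h7]
    exact (rho_cls k'[X] hF' f T hc hcs hd).2
  · rintro rfl c d hc hd
    obtain ⟨⟨h4, h5⟩, h6⟩ := rho_cls k'[X] hF' f T (toTC hc.1) hc.2 hd
    exact ⟨⟨ofTC h4, h5⟩, h6⟩

end acts

/-- The common part of the proofs. -/
theorem common (k k' K F L : Type) [Field k] [Field k'] [Algebra k k'] [IsSepClosed k']
    [Algebra.IsSeparable k k'] [Field K] [Algebra k[X] K] [IsFractionRing k[X] K] [Field F]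
    [Algebra k'[X] F] [IsFractionRing k'[X] F] [Algebra K F] (P : k[X][X])
    [IsDedekindDomain (CurveRing k' P)] [Field L] [Algebra (CurveRing k' P) L]
    [IsFractionRing (CurveRing k' P) L]
    (hcomp : ∀ p : k[X], algebraMap K F (algebraMap k[X] K p) =
      algebraMap k'[X] F (p.map (algebraMap k k'))) (hP : IsSmoothCurve P)
    (hfin : (squares L).relIndex (evenGroup (CurveRing k' P) L) ≠ 0)
    (Q : ∀ (M : Type) [AddCommGroup M] [Module ℤ_[2] M]
      (_ : Cochain F (Sep F) (fPoly P K) → M), Prop)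
    (hQ : ∀ [Module.Finite ℤ_[2] (SelT (F := F) 2 k'[X] (fPoly P K) 2)]
      [Module.Free ℤ_[2] (SelT (F := F) 2 k'[X] (fPoly P K) 2)],
      (∀ (e : L ≃+* L) (τ : k' → k'), FixesPolys k' P L e → HasConstants k' P L e τ →
        (∀ z ∈ evenGroup (CurveRing k' P) L, Units.map (e : L →* L) z / z ∈ squares L) →
        ∀ T : Sep F ≃ₐ[K] Sep F, ActsOnConstants T τ →
          ∀ m : SelT (F := F) 2 k'[X] (fPoly P K) 2,
            ∃ m', rho k'[X] (isGeom_rat hcomp) (fPoly P K) T m - m = (2 : ℤ_[2]) • m') →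
      (∀ (T : Sep F ≃ₐ[K] Sep F) (φ : SelT (F := F) 2 k'[X] (fPoly P K) 2 →ₗ[ℤ_[2]]
        SelT (F := F) 2 k'[X] (fPoly P K) 2),
        ActsAs k'[X] (fPoly P K) (clsOf k'[X] (fPoly P K)) T φ ↔
        φ = rho k'[X] (isGeom_rat hcomp) (fPoly P K) T) →
      Q (SelT (F := F) 2 k'[X] (fPoly P K) 2) (clsOf k'[X] (fPoly P K))) :
    Concl (F := F) k'[X] (fPoly P K) ((squares L).relIndex (evenGroup (CurveRing k' P) L)) Q := by
  have hbr : IsBr P := ⟨hP.two, hP.monic, hP.odd, hP.separable, hP.smooth⟩
  have hF' := isGeom_rat (K := K) (F := F) hcomp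
  refine with_dp (k' := k') (K := K) (F := F) hbr (Q := extendPoly k' P) rfl hcomp L ?_
  intro _ _ _ _ _ _ _ _ _ _ hgd a θ hfld hff hm hreg hfix
  have hcon : ∀ x : k', algebraMap F L (algebraMap k'[X] F (C x)) =
      algebraMap (CurveRing k' P) L (AdjoinRoot.of _ (C x)) := by
    intro x
    rw [← IsScalarTower.algebraMap_apply k'[X] F L,
      IsScalarTower.algebraMap_apply k'[X] (CurveRing k' P) L]
    rfl
  obtain ⟨h1, h2, Ψ, -, hΨ⟩ := core_chain (S := CurveRing k' P) k'[X] hgd hF' hff hm hreg hfld hfin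
  haveI i1 : Module.Finite ℤ_[2] (SelT (F := F) 2 k'[X] (fPoly P K) 2) := h1
  haveI i2 : Module.Free ℤ_[2] (SelT (F := F) 2 k'[X] (fPoly P K) 2) := h2
  have hind := acts_iff (K := K) (F := F) hF' (fPoly P K)
  refine ⟨SelT (F := F) 2 k'[X] (fPoly P K) 2, inferInstance, inferInstance, i1, i2,
    clsOf k'[X] (fPoly P K), classMap, ?_, fun T => ⟨rho k'[X] hF' (fPoly P K) T, (hind T _).2 rfl⟩,
    hQ ?_ hind⟩
  · obtain ⟨h3, h4, -, h5⟩ := hΨ ⊤ fun T m _ => Submodule.mem_top
    have h6 := h5 fun m _ => Submodule.mem_top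
    have h7 : Module.finrank ℤ_[2] (⊤ : Submodule ℤ_[2] (SelT (F := F) 2 k'[X] (fPoly P K) 2)) =
        Module.finrank ℤ_[2] (SelT (F := F) 2 k'[X] (fPoly P K) 2) := finrank_top _ _
    have h8 : (2 : ℕ) ^ Module.finrank ℤ_[2] (SelT (F := F) 2 k'[X] (fPoly P K) 2) =
        (sqS L).relIndex (Ψ ⊤) := by rw [← h7]; exact h6
    rw [h8]
    exact ⟨_, (Subgroup.relIndex_mul_relIndex _ _ _ h3 h4).symm⟩
  · intro e τ he hτ htriv T hT m
    refine core_sub (S := CurveRing k' P) k'[X] hgd hF' hff hm hreg hfld e ((hfix e).1 he) htriv T ?_ m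
    intro x
    rw [hcon, hτ x, ← hcon, ← IsScalarTower.algebraMap_apply F L (Sep F)]
    exact hT x

theorem allFields : AllFields := by
  intro k k' K F L _ _ _ hk' _ _ _ _ _ _ _ P _ _ _ _ hcomp hP hfin
  haveI : IsSepClosed k' := hk'.sep_closed
  haveI : Algebra.IsSeparable k k' := hk'.separable
  refine common k k' K F L P hcomp hP hfin _ ?_
  intro _ _ hsub hind E m hE hm S T ψ φ hS hT hψ hφ
  rw [(hind S ψ).1 hψ, (hind T φ).1 hφ]
  refine finite_orbit' k'[X] (isGeom_rat hcomp) {T | ActsTriviallyOnW k' P L T} ?_ ?_ E m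
    (fun T hT => hm T _ hT ((hind T _).2 rfl)) S T hS hT
  · rintro S ⟨e, τ, h1, h2, h3, h4⟩ T ⟨e', τ', h1', h2', h3', h4'⟩
    refine ⟨e'.trans e, τ ∘ τ', fun p => ?_, fun c => ?_, fun c => ?_, fun z hz => ?_⟩
    · rw [RingEquiv.trans_apply, h1', h1]
    · rw [RingEquiv.trans_apply, h2', h2]
      rfl
    · rw [AlgEquiv.mul_apply, h3', h3]
      rfl
    · have h5 : Units.map ((e'.trans e : L ≃+* L) : L →* L) z / z =
          Units.map (e : L →* L) (Units.map (e' : L →* L) z / z) *
            (Units.map (e : L →* L) z / z) := by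
        rw [_root_.map_div, div_mul_div_cancel]
        rfl
      rw [h5]
      refine mul_mem ?_ (h4 z hz)
      obtain ⟨y, hy⟩ := h4' z hz
      rw [← hy]
      exact ⟨Units.map (e : L →* L) y, (map_pow (Units.map (e : L →* L)) y 2).symm⟩
  · rintro T ⟨e, τ, h1, h2, h3, h4⟩
    exact hsub e τ h1 h2 h4 T h3

theorem finiteFields : FiniteFields := by
  intro k k' K F L _ _ _ _ hk' _ _ _ _ _ _ _ P _ _ _ _ e N hcomp hP hfin he hc hN htriv
  haveI : IsSepClosed k' := hk'.sep_closed
  haveI : Algebra.IsSeparable k k' := hk'.separable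
  refine common k k' K F L P hcomp hP hfin _ ?_
  intro _ _ hsub hind T φ hT hφ m j hj hm
  have hF' := isGeom_rat (K := K) (F := F) hcomp
  rw [(hind T φ).1 hφ] at hm ⊢
  clear hφ φ
  obtain ⟨M, rfl⟩ : ∃ M, N = M + 1 := ⟨N - 1, by omega⟩
  have hpow : ∀ (i : ℕ) (x : k'), (T ^ i) (cs k' F x) = cs k' F (x ^ (Nat.card k ^ i)) := by
    intro i
    induction i with
    | zero => intro x; rw [pow_zero, pow_zero, pow_one]; rfl
    | succ i ih =>
      intro x
      rw [pow_succ', AlgEquiv.mul_apply, ih]
      have h1 := hT (x ^ (Nat.card k ^ i))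
      beta_reduce at h1
      rw [← pow_mul, ← pow_succ] at h1
      exact h1
  -- the iterates of `e`
  have hit : ∀ i : ℕ, ∃ e' : L ≃+* L, FixesPolys k' P L e' ∧
      HasConstants k' P L e' (fun c => c ^ (Nat.card k ^ i)) ∧
      ∀ z, Units.map (e' : L →* L) z = (Units.map (e : L →* L))^[i] z := by
    intro i
    induction i with
    | zero =>
      refine ⟨RingEquiv.refl L, fun p => rfl, fun c => ?_, fun z => ?_⟩
      · beta_reduce
        rw [pow_zero, pow_one]
        rfl
      · rfl
    | succ i ih =>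
      obtain ⟨e', h1, h2, h3⟩ := ih
      refine ⟨e'.trans e, fun p => ?_, fun c => ?_, fun z => ?_⟩
      · rw [RingEquiv.trans_apply, h1, he]
      · rw [RingEquiv.trans_apply, h2, hc]
        beta_reduce
        rw [← pow_mul, ← pow_succ]
      · rw [Function.iterate_succ_apply', ← h3]
        rfl
  obtain ⟨e', h1', h2', h3'⟩ := hit (M + 1)
  have hs1 := hsub e' _ h1' h2' (fun z hz => by rw [h3']; exact htriv z hz) (T ^ (M + 1))
    (fun c => hpow (M + 1) c)
  have hr1 := Pool.Agent.Q45.GM.rho_pow k'[X] hF' (fPoly P K) T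
  obtain ⟨i, rfl⟩ : ∃ i, j = i + 1 := ⟨j - 1, by omega⟩
  have hmm : (rho k'[X] hF' (fPoly P K) (T ^ (M + 1)) ^ (i + 1)) m = m := by
    rw [← Pool.Agent.Q45.GM.rho_pow]
    have h1 : (T ^ (M + 1)) ^ (i + 1) = (T ^ (i + 1)) ^ (M + 1) := by
      rw [← pow_mul, ← pow_mul, mul_comm]
    rw [h1, Pool.Agent.Q45.GM.rho_pow]
    have h3 : rho k'[X] hF' (fPoly P K) (T ^ (i + 1)) m = m := by rw [hr1]; exact hm
    have h4 : ∀ l : ℕ, (rho k'[X] hF' (fPoly P K) (T ^ (i + 1)) ^ l) m = m := by
      intro l
      induction l with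
      | zero => rfl
      | succ l ih =>
        have h5 : (rho k'[X] hF' (fPoly P K) (T ^ (i + 1)) ^ (l + 1)) m =
            rho k'[X] hF' (fPoly P K) (T ^ (i + 1))
              ((rho k'[X] hF' (fPoly P K) (T ^ (i + 1)) ^ l) m) := by
          rw [pow_succ' (rho k'[X] hF' (fPoly P K) (T ^ (i + 1))) l]
          rfl
        rw [h5, ih, h3]
    exact h4 _
  have h := rho_sq' k'[X] hF' (T ^ (M + 1)) hs1 m (i + 1) hj hmm
  rw [← rho_mul, ← pow_add] at h
  have h1 : M + 1 + (M + 1) = (2 * M + 1) + 1 := by ring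
  rw [h1, hr1] at h
  have h3 : 2 * (M + 1) = 2 * M + 1 + 1 := by ring
  rw [h3]
  exact h

/-- (1) All fields. (2) Finite fields. -/
theorem result : AllFields ∧ FiniteFields := ⟨allFields, finiteFields⟩

end Pool.Agent.Results.MP_17a657_ag.DivisorsOfDoublePlanes
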