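import Pool.Agent.Q269.FG.Coh

/-!
# The Tate conjecture for divisors for almost all surfaces `y ^ ℓ = D(t) (x - b 1(t)) ⋯ (x - b n(t))`
# over every finitely generated field of characteristic zero

Let `k` be any finitely generated field of characteristic zero (of any transcendence degree), `ℓ` an
odd prime such that `k` contains the roots of unity of order `ℓ`, `A` any finitely generated subring
of `k` (for example `A = ℤ`, or `A` with fraction field `k`), `n ≥ 3` prime to `ℓ`, and
`b 1, …, b n` polynomials over `A` such that all the differences `b i - b j` (`i ≠ j`) have the same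
degree `N ≥ 1` and the product of the differences `b i - b j`, `i < j`, is squarefree over `k`. (For
example `N = 1`, `b i = c i t + (c i) ^ 2`, where the `c i` are distinct elements of `A` such that the
sums `c i + c j`, `i < j`, are distinct.) For a monic polynomial `D` over `A` let `X_D` be a smooth
projective model of the surface

`y ^ ℓ = D(t) (x - b 1) ⋯ (x - b n)`

and `J_D` the Jacobian of its generic fibre over the `t`-line.

Theorem. For every `η > 0` there is a proper ideal `M` of finite index of `A` such that, for all large
`m` with `m` and `m + n N` not divisible by `ℓ`, for at least the proportion `1 - η` of the monic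
polynomials `E` of degree `m` over `A / M`, EVERY monic `D` over `A` congruent to `E` modulo `M` has the
following properties: there are a prime number `p` and an embedding `k → ℚ_p` which maps `A` into `ℤ_p`
such that

1. for EVERY field `k₁` between `k` and `ℚ_p` (for `k₁ = k`, for infinitely many finite extensions of
  `k`, for finitely generated fields `k₁` of every larger transcendence degree, and also for
  `k₁ = ℚ_p`) the Tate conjecture at `ℓ` holds over `k₁`: all the classes in the `ℓ`-adic Selmer group
  of `J_D` over `k₁'(t)`, `k₁'` an algebraic closure of `k₁`, which are fixed by the Galois group of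
  `k₁` come from `J_D(K₁)`, `K₁ = k₁(t)`. It is stated with the monic model `w ^ ℓ = ∏ (z - D ^ u b i)`
  of the curve, `n u = 1 + ℓ v`, `z = D ^ u x`, `w = D ^ v y`;
2. modulo `p` the differences have the same degree `N` and a squarefree product, `D` is squarefree and
  prime to the differences, `ℓ` divides `p - 1`, and for the Jacobian over `𝔽_p(t)` of the reduced curve
  every class of `ℓ`-power order which is trivial over the completions at all the maximal ideals of
  `𝔽_p[t]` is zero, and every rational point is the sum of a point killed by `ℓ` and of `ℓ` times a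
  rational point.

So 100 percent of the polynomials `D` over `A` (a random residue class modulo ideals of finite index)
have these properties.

Property 1 is the Tate conjecture for the divisors on `X_D` over `k₁` at the prime `ℓ`, since the Brauer
group of `X_D` over `k₁'` is isomorphic to the group of the everywhere locally trivial classes of `J_D`
over `k₁'(t)` (Grothendieck). Property 2 gives it at all primes `ℓ'`: `X_D` has good reduction over the
discrete valuation ring `k₁ ∩ ℤ_p`; over `𝔽_p` the rank is zero and the Brauer group has trivial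
`ℓ`-primary part, so by Artin, Tate and Milne all the Tate classes of the reduction are combinations of
the classes of the components of the fibres and of a section; these lift to divisors over `k₁'`, and
the specialisation of the Tate classes is injective. The Tate conjecture for `X_D` over a field implies
that over all its subfields of finite index over which `X_D` is defined, so the roots of unity in `k`
are not necessary for this conclusion.

The starting files contain the theorem for number fields `k` (`MP_89bcae_ag.SuperellipticSurfaces`).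
Here are all the finitely generated fields of characteristic zero, and all the intermediate fields of
`k` and `ℚ_p` at the same time; the descent over the discrete valuation rings is
`Pool.Agent.Y164.NZ.imp_tate`, the new ingredient is an integral form of the embedding theorem of
Cassels (`Pool.Agent.Q269.FG.Emb`) with the discrete valuation rings `k₁ ∩ ℤ_p`.

The definitions of the Jacobian, of the Tate classes and of the tower `k₁, k₁', K₁, F₁ = k₁'(t)` are in
`Pool.Agent.Y713.TG.Stm` and `Pool.Agent.TH115.GD.Defs`, those of the cohomology classes over `𝔽_p(t)`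
in `Pool.Agent.Q269.FG.Coh`.
-/

set_option autoImplicit false
set_option linter.all false

namespace Pool.Agent.Results.MP_17a657_ag.EveryFieldCharZero

open Polynomial
open Pool.Agent.Q269.FG.Coh
open Pool.Agent.Y713.Jac (J)
open Pool.Agent.TH115.GD (IsTower)
open Pool.Agent.Y713.Tate (TateAt)

/-- The polynomial `∏ (z - D ^ u b i)` in `z` over `K = k(t)`. -/
noncomputable def monicModel {k : Type} [Field k] (K : Type) [Field K] [Algebra k[X] K] {n : ℕ}
    (b : Fin n → k[X]) (u : ℕ) (D : k[X]) : K[X] :=
  ∏ i, (X - C (algebraMap k[X] K (D ^ u * b i)))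

/-- The Tate conjecture at `ℓ` for the surface `y ^ ℓ = D ∏ (x - b i)` over `k`, fibred over the
`t`-line: for every separable closure `k'` of `k`, with `K = k(t)` and `F = k'(t)`, all the Tate classes
come from the points over `K`. -/
def IsTate {k : Type} [Field k] (ℓ : ℕ) {n : ℕ} (b : Fin n → k[X]) (D : k[X]) : Prop :=
  ∀ (k' K F : Type) [Field k'] [Algebra k k'] [Field K] [Algebra k[X] K] [IsFractionRing k[X] K]
    [Field F] [Algebra k'[X] F] [IsFractionRing k'[X] F] [Algebra K F], IsTower k k' K F →
      ∀ u : ℕ, n * u ≡ 1 [MOD ℓ] → TateAt (F := F) ℓ k' (monicModel K b u D)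

section
variable {A : Type} [CommRing A] (ℓ : ℕ) {n : ℕ} (N : ℕ) (b : Fin n → A[X])

/-- The curve `y ^ ℓ = D ∏ (x - b i)` reduced modulo `p`, over `𝔽_p(t)`. -/
noncomputable def reduced {p : ℕ} [Fact p.Prime] (r : A →+* ZMod p) (D : A[X]) :
    (RatFunc (ZMod p))[X] :=
  twist (RatFunc (ZMod p)) (fun i => (b i).map r) (D.map r)

/-- The conditions for the reduced curve over `𝔽_p(t)`. -/
structure IsGoodModulo {p : ℕ} [Fact p.Prime] (r : A →+* ZMod p) (D : A[X]) : Prop where
  two : p ≠ 2
  root : ℓ ∣ p - 1
  degree : ∀ i j, i ≠ j → ((b i).map r - (b j).map r).natDegree = N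
  squarefree : Squarefree (differences (fun i => (b i).map r))
  twist_squarefree : Squarefree (D.map r)
  coprime : ∀ i j, i ≠ j → IsCoprime (D.map r) ((b i).map r - (b j).map r)
  sha : ShaTrivial ℓ (reduced b r D) (ZMod p)[X]
  points : TorsionTimesPowers ℓ (J ℓ (reduced b r D) (RatFunc (ZMod p)))

variable (k : Type) [Field k] [Algebra A k]

/-- The polynomial `q` over `A` as a polynomial over the extension `k₁` of `k`. -/
noncomputable def overField (k₁ : Type) [Field k₁] [Algebra k k₁] (q : A[X]) : k₁[X] :=
  q.map ((algebraMap k k₁).comp (algebraMap A k))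

variable {k} in
/-- The embedding `φ : k → ℚ_p` maps `A` into `ℤ_p`; the homomorphism `A → ℤ_p → ZMod p`. -/
noncomputable def reduction {p : ℕ} [Fact p.Prime] (φ : k →+* ℚ_[p])
    (h : ∀ a : A, ‖φ (algebraMap A k a)‖ ≤ 1) : A →+* ZMod p :=
  (PadicInt.toZMod (p := p)).comp
    ((φ.comp (algebraMap A k)).codRestrict (PadicInt.subring p) h)

/-- Property 1: the Tate conjecture over all the extensions `k₁` of `k` with an embedding into `ℚ_p`
which extends the embedding `φ` of `k`. -/
def TateInside {p : ℕ} [Fact p.Prime] (φ : k →+* ℚ_[p]) (D : A[X]) : Prop :=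
  ∀ (k₁ : Type) [Field k₁] [Algebra k k₁] (φ₁ : k₁ →+* ℚ_[p]), φ₁.comp (algebraMap k k₁) = φ →
    IsTate ℓ (fun i => overField k k₁ (b i)) (overField k k₁ D)

/-- The properties 1 and 2 of the polynomial `D`. -/
def HasProperties (D : A[X]) : Prop :=
  ∃ (p : ℕ) (_ : Fact p.Prime) (φ : k →+* ℚ_[p]) (h : ∀ a : A, ‖φ (algebraMap A k a)‖ ≤ 1),
    TateInside ℓ b k φ D ∧ IsGoodModulo ℓ N b (reduction φ h) D

end

theorem result {ℓ : ℕ} (hℓ : ℓ.Prime) (hℓ2 : ℓ ≠ 2) {k : Type} [Field k] [CharZero k]
    (hk : IsFinitelyGenerated k) (hζ : ∃ ζ : k, IsPrimitiveRoot ζ ℓ) {A : Type} [CommRing A]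
    [Algebra.FiniteType ℤ A] [Algebra A k] (hA : Function.Injective (algebraMap A k)) {n : ℕ}
    (hn : ¬ ℓ ∣ n) (hn3 : 3 ≤ n) {N : ℕ} (b : Fin n → A[X]) (hb : IsAdmissible k N b) :
    HoldsForAlmostAll {m | ¬ ℓ ∣ m ∧ ¬ ℓ ∣ m + n * N} (HasProperties ℓ N b k) := by
  obtain ⟨ζ, hζ⟩ := hζ
  refine HoldsForAlmostAll.of (Q := Pool.Agent.Q269.FG.PropD (algebraMap A k) ℓ N b) ?_ ?_
  · intro η hη
    obtain ⟨M, hM1, hM2, h⟩ := Pool.Agent.Q269.FG.main hℓ hℓ2 hk hζ (algebraMap A k) hA
      range_le_of_finiteType hn hn3 hb.pos b hb.degree hb.squarefree η hη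
    refine ⟨M, hM1, hM2, ?_⟩
    filter_upwards [h] with m hm hmS
    exact hm hmS.1 hmS.2
  · rintro D hD ⟨p, hp, φ, hφ, hext, hred⟩
    refine ⟨p, hp, φ, hφ, ?_, ?_⟩
    · intro k₁ _ _ φ₁ hφ₁ k' K F _ _ _ _ _ _ _ _ _ hT u hu
      obtain ⟨-, h3⟩ := hext k₁ (algebraMap k k₁) φ₁ hφ₁ K
      exact h3 k' F hT u hu
    · have hrr : reduction φ hφ = Pool.Agent.Q269.FG.rA φ (algebraMap A k) hφ := rfl
      rw [hrr]
      refine ⟨?_, ?_, hred.ok.deg, hred.ok.sq, hred.tw.2.2.1, hred.tw.2.2.2, hred.good.1,
        hred.good.2⟩
      · intro hp2
        apply hred.ok.two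
        have h5 : ((2 : ℕ) : ZMod p) = 0 := by
          rw [ZMod.natCast_eq_zero_iff, hp2]
        exact_mod_cast h5
      · have h4 := hred.ok.div
        rw [Nat.card_eq_fintype_card, ZMod.card] at h4
        exact h4

end Pool.Agent.Results.MP_17a657_ag.EveryFieldCharZero
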