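import Pool.Agent.Q45.TD.Dens
import Pool.Agent.Q45.TW.Crt
import Pool.Agent.Q45.TW.PicI

/-!
# The Tate conjecture at `2` for surfaces fibred over curves of every genus

Let `k` be a field of characteristic different from `2`, `g` a monic polynomial over `k` of odd degree,
`c₁, …, c_m` elements of `k`, and `𝒞` the curve `y_i ^ 2 = t + c_i`, `i = 1, …, m`, over `k` in the
variables `t, y₁, …, y_m`; its genus is `1 + 2 ^ (m - 2) (m - 3)` for `m ≥ 2`. Let `K = k(𝒞)` and let `J`
be the Jacobian of the hyperelliptic curve `w ^ 2 = f(x)`, `f(x) = g(x) + t`, over `K`. So `K` is the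
function field of the base of the surface `w ^ 2 = g(x) + t`, `y_i ^ 2 = t + c_i`, a covering of the plane
with coordinates `x, w` with group `(ℤ / 2) ^ m`.

(1) Under conditions on the factors of the polynomials `g - c_s` (independence of the `c_i - c_s`, `i < s`,
modulo squares, and a condition of Rédei) the Tate conjecture at `2` holds: the Galois-invariant classes
of `V₂ Sel(J / k'K)` come from `J(K)`, `k'` the separable closure of `k`; and `J(K)` has a basis at `2`
with `∑ (ω_i - 1)` elements, where `ω_i` is the number of the irreducible factors of `g - c_i`.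

(2) Let `k₀` be a field of characteristic different from `2`, `f₀` a monic polynomial over `k₀` of odd
degree at least `3`, `k = k₀(h, x₁, …, x_r)`, `g(x) = f₀(x) + h x` and `c_i = g(x_i)`, so that
`t + c_i = f(x_i)` and `𝒞` is given by `y_i ^ 2 = f(x_i)`. Then the Tate conjecture at `2` holds, and the
classes of the marked points `(x_i, y_i)` are a basis of `J(K)` at `2`.

(3) Let `k` be a number field and `n ≥ 5` odd. For `100%` of the integer vectors
`(a₁, …, a_n, x₁, …, x_r, c₁, …, c_m)` the following holds for the polynomial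
`g(x) = x ^ n + a_n x ^ (n - 1) + … + a₁` and `K = k(t)(y₁, …, y_r, z₁, …, z_m)`,
`y_i ^ 2 = t + g(x_i)`, `z_j ^ 2 = t + c_j`: the Tate conjecture at `2` holds, the `2`-primary part of the
Tate-Shafarevich group of `J` over `K` is zero, and the classes of the points `(x_i, y_i)` are a basis of
`J(K)` at `2`.
-/

set_option autoImplicit false
set_option linter.all false

open Polynomial IsDedekindDomain Filter Topology
open scoped Classical

namespace Pool.Agent.Results.MP_17a657_ag.TateBaseCurvesEveryGenus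

open Pool.Agent.Y160.SL
open Pool.Agent.TH115.GD (incl Sep Comp)
open Pool.Agent.Q45.TW (IsIdealClass)

/-- The elements of `k` as elements of `K`. -/
noncomputable def const (k K : Type) [Field k] [Field K] [Algebra k[X] K] : k →+* K :=
  (algebraMap k[X] K).comp C

/-- The polynomial `f(x) = g(x) + t` over `K`, where `t` is the variable of `k[t]`. -/
noncomputable def fPoly {k : Type} [Field k] (g : k[X]) (K : Type) [Field K] [Algebra k[X] K] : K[X] :=
  g.map (const k K) + C (algebraMap k[X] K X)

/-- `K` is generated over `k(t)` by the elements `y_i`, `y_i ^ 2 = t + c_i`, and `t` is transcendental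
over `k`. -/
structure IsFunctionField {k : Type} [Field k] {ι : Type} (c : ι → k) (K : Type)
    [Field K] [Algebra k[X] K] (y : ι → K) : Prop where
  inj : Function.Injective (algebraMap k[X] K)
  sq : ∀ i, y i ^ 2 = algebraMap k[X] K (X + C (c i))
  gen : Subfield.closure (Set.range (algebraMap k[X] K) ∪ Set.range y) = ⊤

/-- The field `F` is the extension `k' K` of `K` by the constants `k'`. -/
structure IsConstantExtension (k k' K F : Type) [Field k] [Field k'] [Algebra k k'] [Field K]
    [Algebra k[X] K] [Field F] [Algebra k'[X] F] [Algebra K F] : Prop where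
  inj : Function.Injective (algebraMap k'[X] F)
  comp : ∀ p : k[X], algebraMap K F (algebraMap k[X] K p) =
    algebraMap k'[X] F (p.map (algebraMap k k'))
  gen : IntermediateField.adjoin K (Set.range ((algebraMap k'[X] F).comp C)) = ⊤

/-- The restriction of the cochain `c` to the completion of `F` at every maximal ideal of the Dedekind
domain `B` with field of fractions `F` is a coboundary. -/
def IsSelmer {K F : Type} [Field K] [Field F] [Algebra K F] (B : Type) [CommRing B]
    [IsDedekindDomain B] [Algebra B F] [IsFractionRing B F] (f : K[X])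
    (c : (Sep F ≃ₐ[F] Sep F) → Jac 2 f (Sep F)) : Prop :=
  ∀ v : HeightOneSpectrum B, LocTriv 2 f (Comp B F v) (Sep (Comp B F v)) c

/-- The class of `c`, with values in `T₂ J`, comes from `J(K)`: for every `n` there are `P` in `J(K)` and
`R` in `J(Sep F)` with `2 ^ n R = P` and `c n σ = σ R - R` for all `σ`. -/
def ComesFromK {K F : Type} [Field K] [Field F] [Algebra K F] (f : K[X])
    (c : ℕ → (Sep F ≃ₐ[F] Sep F) → Jac 2 f (Sep F)) : Prop :=
  ∀ n, ∃ (P : Jac 2 f K) (R : Jac 2 f (Sep F)), 2 ^ n • R = jm 2 f (incl K K (Sep F)) P ∧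
    IsCobOf 2 f (c n) R

/-- If `c` is a cocycle of `Gal(Sep F / F)` with values in `T₂ J` which is locally trivial at the maximal
ideals of `B`, and the class of `c` in `H ^ 1 (F, V₂ J)` is fixed by the Galois group of `K`, then the
class of `c` comes from `J(K)`. -/
def TateAtTwo {K F : Type} [Field K] [Field F] [Algebra K F] (B : Type) [CommRing B]
    [IsDedekindDomain B] [Algebra B F] [IsFractionRing B F] (f : K[X]) : Prop :=
  ∀ c : ℕ → (Sep F ≃ₐ[F] Sep F) → Jac 2 f (Sep F), IsTC 2 2 f c →
    (∀ n, IsSelmer B f (c n)) → IsInv 2 2 f c → ComesFromK f c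

/-- The Tate conjecture at `2` for the surface with generic fibre `w ^ 2 = f(x)` over `K`, for every
Galois extension `k'` of `k` (for example the separable closure of `k`), `F = k' K` and `B` the integral
closure of `k'[t]` in `F`: only the places of `F` over the affine `t`-line are used. -/
def TateConj (k : Type) {K : Type} [Field k] [Field K] [Algebra k[X] K] (f : K[X]) : Prop :=
  ∀ (k' F B : Type) [Field k'] [Algebra k k'] [IsGalois k k'] [Field F] [Algebra k'[X] F]
    [Algebra K F] [CommRing B] [IsDedekindDomain B] [Algebra B F] [IsFractionRing B F]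
    [Algebra k'[X] B] [IsScalarTower k'[X] B F] [IsIntegralClosure B k'[X] F],
    IsConstantExtension k k' K F → TateAtTwo (F := F) B f

/-- The `2`-primary part of the Tate-Shafarevich group of `J` over `K` is zero, even with respect to the
maximal ideals of the integral closure `A` of `k[t]` in `K` only. -/
def ShaZero (k : Type) {K : Type} [Field k] [Field K] [Algebra k[X] K] (f : K[X]) : Prop :=
  ∀ (A : Type) [CommRing A] [IsDedekindDomain A] [Algebra A K] [IsFractionRing A K]
    [Algebra k[X] A] [IsScalarTower k[X] A K] [IsIntegralClosure A k[X] K], ShaTriv 2 2 A f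

/-- The polynomial `p` is a square modulo `G`. -/
def IsSquareMod {k : Type} [Field k] (G p : k[X]) : Prop := ∃ w : k[X], G ∣ p - w ^ 2

/-- The product of the `c_i - c_s` for the `i` in `I`. -/
noncomputable def diffProd {k : Type} [Field k] {m : ℕ} (c : Fin m → k) (s : Fin m)
    (I : Finset (Fin m)) : k := ∏ i ∈ I, (c i - c s)

/-- The product of the polynomials `g - c_i` for the `i` in `I`. -/
noncomputable def polyProd {k : Type} [Field k] {m : ℕ} (g : k[X]) (c : Fin m → k)
    (I : Finset (Fin m)) : k[X] := ∏ i ∈ I, (g - C (c i))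

/-- For each irreducible factor `G` of `g - c_s`, a product of different `c_i - c_s`, `i < s`, is not a
square modulo `G`, the empty product excepted. -/
def Independent {k : Type} [Field k] {m : ℕ} (g : k[X]) (c : Fin m → k) (s : Fin m) : Prop :=
  ∀ G : k[X], G.Monic → Irreducible G → G ∣ g - C (c s) → ∀ I : Finset (Fin m), I ≠ ∅ →
    (∀ i ∈ I, i < s) → ¬ IsSquareMod G (C (diffProd c s I))

/-- The condition of Rédei: if `a` is a monic divisor of the product of some of the `g - c_i`, `i < s`,
and for each irreducible factor `G` of `g - c_s` the product of `(-1) ^ (deg a) a` and some of the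
`c_i - c_s`, `i < s`, is a square modulo `G`, then `a` is a product of some of the `g - c_i`, `i < s`. -/
def Redei {k : Type} [Field k] {m : ℕ} (g : k[X]) (c : Fin m → k) (s : Fin m) : Prop :=
  ∀ a : k[X], a.Monic → (∃ J : Finset (Fin m), (∀ i ∈ J, i < s) ∧ a ∣ polyProd g c J) →
    (∀ G : k[X], G.Monic → Irreducible G → G ∣ g - C (c s) → ∃ I : Finset (Fin m),
      (∀ i ∈ I, i < s) ∧ IsSquareMod G ((-1) ^ a.natDegree * a * C (diffProd c s I))) →
    ∃ I : Finset (Fin m), (∀ i ∈ I, i < s) ∧ a = polyProd g c I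

/-- The conditions for all `c_s`: the polynomial `g - c_s` is separable, and the conditions of
independence and of Rédei hold. -/
def Admissible {k : Type} [Field k] {m : ℕ} (g : k[X]) (c : Fin m → k) : Prop :=
  ∀ s, (g - C (c s)).Separable ∧ Independent g c s ∧ Redei g c s

/-- The number of the irreducible factors of a polynomial, with multiplicities. -/
noncomputable def numFactors {k : Type} [Field k] (p : k[X]) : ℕ :=
  (UniqueFactorizationMonoid.normalizedFactors p).card

/-- The elements `h` (for `none`) and `x_i` (for `some i`) of the field `k = k₀(h, x₁, …, x_r)`. -/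
noncomputable def var (k₀ : Type) [Field k₀] (r : ℕ) (k : Type) [Field k]
    [Algebra (MvPolynomial (Option (Fin r)) k₀) k] (i : Option (Fin r)) : k :=
  algebraMap (MvPolynomial (Option (Fin r)) k₀) k (MvPolynomial.X i)

/-- The polynomial `g(x) = f₀(x) + h x` over `k = k₀(h, x₁, …, x_r)`. -/
noncomputable def gPoly {k₀ : Type} [Field k₀] (r : ℕ) (k : Type) [Field k]
    [Algebra (MvPolynomial (Option (Fin r)) k₀) k] (f₀ : k₀[X]) : k[X] :=
  f₀.map ((algebraMap (MvPolynomial (Option (Fin r)) k₀) k).comp MvPolynomial.C) +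
    C (var k₀ r k none) * X

/-- The ideal of the point `(a, b)` in the coordinate ring of the affine curve `w ^ 2 = f(x)`. -/
noncomputable def ptIdeal {K : Type} [Field K] (f : K[X]) (a b : K) : Ideal (CoordRing 2 f) :=
  Ideal.span {ofPoly 2 f (X - C a), wfun 2 f - ofPoly 2 f (C b)}

/-- The element `P` of `J(K) = Pic(K[x, w] / (w ^ 2 - f(x)))` is the class of the ideal of the point
`(a, b)`. -/
def IsPoint {K : Type} [Field K] (f : K[X]) (a b : K) (P : Jac 2 f K) : Prop :=
  IsIdealClass (R := CoordRing 2 (f.map (algebraMap K K))) P (ptIdeal (f.map (algebraMap K K)) a b)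

/-- The polynomial `x ^ n + ∑ v_i x ^ i`, where `i < n` and `v` is an integer vector, over `k`. -/
noncomputable def gOf (k : Type) [Field k] {n r m : ℕ} (v : Fin (n + (r + m)) → ℤ) : k[X] :=
  X ^ n + ∑ i : Fin n, C ((v (Fin.castAdd (r + m) i) : ℤ) : k) * X ^ (i : ℕ)

/-- The element `x_i`, `i < r`, given by the vector `v`. -/
def xOf (k : Type) [Field k] {n r m : ℕ} (v : Fin (n + (r + m)) → ℤ) (i : Fin r) : k :=
  ((v (Fin.natAdd n (Fin.castAdd m i)) : ℤ) : k)

/-- The elements `g(x_i)`, `i < r`, and `c_j`, `j < m`, given by the vector `v`. -/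
noncomputable def cOf (k : Type) [Field k] {n r m : ℕ} (v : Fin (n + (r + m)) → ℤ) :
    Fin r ⊕ Fin m → k :=
  Sum.elim (fun i => (gOf k v).eval (xOf k v i))
    fun j => ((v (Fin.natAdd n (Fin.natAdd r j)) : ℤ) : k)

/-- The conclusion for `K = k(t)(y₁, …, y_r, z₁, …, z_m)`, `y_i ^ 2 = t + g(x_i)`, `z_j ^ 2 = t + c_j`,
where the polynomial `g`, the `x_i` and the `c_j` are given by the integer vector `v`. -/
def Holds (k : Type) [Field k] {n r m : ℕ} (v : Fin (n + (r + m)) → ℤ) : Prop :=
  ∀ (K : Type) [Field K] [Algebra k[X] K] (y : Fin r ⊕ Fin m → K), IsFunctionField (cOf k v) K y →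
    TateConj k (fPoly (gOf k v) K) ∧ ShaZero k (fPoly (gOf k v) K) ∧
      ∃ P : Fin r → Jac 2 (fPoly (gOf k v) K) K, IsBasisAt 2 P ∧
        ∀ i, IsPoint (fPoly (gOf k v) K) (const k K (xOf k v i)) (y (Sum.inl i)) (P i)

/-- The criterion. The last assertion means that `J(K)` has a basis at `2` with `∑ (ω_i - 1)` elements,
where `ω_i` is the number of the irreducible factors of `g - c_i`. -/
def Criterion : Prop :=
  ∀ (k : Type) [Field k] (g : k[X]) (m : ℕ) (c : Fin m → k), (2 : k) ≠ 0 → g.Monic →
    Odd g.natDegree → derivative g ≠ 0 → Admissible g c →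
    ∀ (K : Type) [Field K] [Algebra k[X] K] (y : Fin m → K), IsFunctionField c K y →
      TateConj k (fPoly g K) ∧
      ∃ D : Fin (∑ i, (numFactors (g - C (c i)) - 1)) → Jac 2 (fPoly g K) K, IsBasisAt 2 D

/-- The universal case: `k = k₀(h, x₁, …, x_r)`, `g(x) = f₀(x) + h x`, `c_i = g(x_i)`. -/
def Universal : Prop :=
  ∀ (k₀ : Type) [Field k₀] (f₀ : k₀[X]) (r : ℕ), (2 : k₀) ≠ 0 → f₀.Monic →
    3 ≤ f₀.natDegree → Odd f₀.natDegree → ∀ (k : Type) [Field k]
      [Algebra (MvPolynomial (Option (Fin r)) k₀) k]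
      [IsFractionRing (MvPolynomial (Option (Fin r)) k₀) k]
      (K : Type) [Field K] [Algebra k[X] K] (y : Fin r → K),
    IsFunctionField (fun i => (gPoly r k f₀).eval (var k₀ r k (some i))) K y →
      TateConj k (fPoly (gPoly r k f₀) K) ∧
      ∃ P : Fin r → Jac 2 (fPoly (gPoly r k f₀) K) K, IsBasisAt 2 P ∧
        ∀ i, IsPoint (fPoly (gPoly r k f₀) K) (const k K (var k₀ r k (some i))) (y i) (P i)

/-- Number fields: the set of the exceptions has density zero. -/
def NumberFields : Prop :=
  ∀ (k : Type) [Field k] [NumberField k] (n r m : ℕ), 5 ≤ n → Odd n →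
    Tendsto (fun H : ℕ => (({v : Fin (n + (r + m)) → ℤ | (∀ i, |v i| ≤ (H : ℤ)) ∧
      ¬ Holds k v}.ncard : ℕ) : ℝ) / (2 * (H : ℝ) + 1) ^ (n + (r + m))) atTop (𝓝 0)

theorem tate_of {K F : Type} [Field K] [Field F] [Algebra K F] {B : Type} [CommRing B]
    [IsDedekindDomain B] [Algebra B F] [IsFractionRing B F] {f : K[X]}
    (h : Pool.Agent.Q45.GP.TateOver (F := F) 2 2 B f) : TateAtTwo (F := F) B f := by
  intro c hc hl hi n
  exact h c ⟨fun n => ⟨(hc.coc n).lc, (hc.coc n).mul⟩, hc.zero, hc.step⟩ hl
    (fun τ => by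
      obtain ⟨m, Q, hQ, hm⟩ := hi τ
      exact ⟨m, Q, ⟨hQ.zero, hQ.step⟩, hm⟩) n

theorem gOf_eq (k : Type) [Field k] {n r m : ℕ} (v : Fin (n + (r + m)) → ℤ) :
    gOf k v = Pool.Agent.Q45.TD.gK (Pool.Agent.Q45.TD.vk k v) := rfl

theorem xOf_eq (k : Type) [Field k] {n r m : ℕ} (v : Fin (n + (r + m)) → ℤ) (i : Fin r) :
    xOf k v i = Pool.Agent.Q45.TD.vk k v (Sum.inr (Sum.inl i)) := rfl

theorem cOf_eq (k : Type) [Field k] {n r m : ℕ} (v : Fin (n + (r + m)) → ℤ) :
    cOf k v = Pool.Agent.Q45.TD.cc (Pool.Agent.Q45.TD.vk k v) := by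
  funext i
  rcases i with i | j
  · rw [Pool.Agent.Q45.TD.cc_inl]
    rfl
  · rw [Pool.Agent.Q45.TD.cc_inr]
    rfl

/-- (1) The criterion. (2) The universal case. (3) Number fields. -/
theorem result : Criterion ∧ Universal ∧ NumberFields := by
  refine ⟨?_, ?_, ?_⟩
  · intro k _ g m c h2 hg hodd hd h K _ _ y hK
    obtain ⟨-, h1, D, hD⟩ := Pool.Agent.Q45.TW.crit_all h2 hg hodd hd
      (fun s => ⟨(h s).1, fun G h1 h3 h4 I h5 h6 w hw => (h s).2.1 G h1 h3 h4 I h5 h6 ⟨w, hw⟩,
        fun a ha had hc => (h s).2.2 a ha ⟨_, fun i hi => (Finset.mem_filter.1 hi).2, had⟩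
          fun G h1 h3 h4 => by
            obtain ⟨I, w, h5, h6⟩ := hc G h1 h3 h4
            exact ⟨I, h5, w, h6⟩⟩) (⟨hK.inj, hK.sq, hK.gen⟩ :
        Pool.Agent.Q45.TW.IsCov k c K y)
    refine ⟨?_, D, hD⟩
    intro k' F B _ _ _ _ _ _ _ _ _ _ _ _ _ hF
    exact tate_of (h1 k' F B ⟨hF.inj, hF.comp, hF.gen⟩)
  · intro k₀ _ f₀ r h2 hf hn hodd k _ _ _ K _ _ y hK
    obtain ⟨q, hD⟩ := Pool.Agent.Q45.TW.univ_all (k := k) (G := gPoly r k f₀)
      (x := fun i => var k₀ r k (some i)) h2 hf (by omega) hodd rfl fun i => rfl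
    have hC : Pool.Agent.Q45.TW.IsCov k (fun i => (gPoly r k f₀).eval (var k₀ r k (some i))) K y :=
      ⟨hK.inj, hK.sq, hK.gen⟩
    refine ⟨?_, _, hD.basis hC, fun i => ?_⟩
    · intro k' F B _ _ _ _ _ _ _ _ _ _ _ _ _ hF
      exact tate_of (hD.tate hC (k' := k') (A' := B) ⟨hF.inj, hF.comp, hF.gen⟩)
    · have h1 := hD.cls hC i
      rw [Polynomial.map_sub, map_X, map_C] at h1
      exact Pool.Agent.Q45.TW.cl_class h1
  · intro k _ _ n r m hn hodd
    refine Q45.Tate.Zd.mono (S := {v | ¬ Holds k v}) (Pool.Agent.Q45.TD.exc_zd (n := n) (r := r)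
      (m := m) (by omega) k) ?_
    intro v hv
    by_contra hex
    apply hv
    intro K _ _ y hK
    have hD := Pool.Agent.Q45.TD.dens_data (k := k) (by omega) hodd hex
    rw [cOf_eq] at hK
    have hC : Pool.Agent.Q45.TW.IsCov k (Pool.Agent.Q45.TD.cc (Pool.Agent.Q45.TD.vk k v)) K y :=
      ⟨hK.inj, hK.sq, hK.gen⟩
    refine ⟨?_, ?_, _, hD.basis hC, fun i => ?_⟩
    · intro k' F B _ _ _ _ _ _ _ _ _ _ _ _ _ hF
      exact tate_of (hD.tate hC (k' := k') (A' := B) ⟨hF.inj, hF.comp, hF.gen⟩)
    · intro A _ _ _ _ _ _ _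
      exact shaTriv_of (hD.sha (A := A) hC)
    · have h1 := hD.cls hC (Sum.inl i)
      rw [Polynomial.map_sub, map_X, map_C] at h1
      exact Pool.Agent.Q45.TW.cl_class h1

end Pool.Agent.Results.MP_17a657_ag.TateBaseCurvesEveryGenus
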